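import Pool.Agent.Run7.h194.RothL

/-!
# A Rothberger space that is not omega-Rothberger, in ZFC

The space is the disjoint sum of Moore's L space `{w β : β < ω₁}` and its reflected copy
`{w' β : β < ω₁}`, where `w' β = 1/2 - w β` below `β` and `w' β = 0` from `β` on.

* Both halves are (hereditarily) Lindelöf by the oscillation theorem, and on each countable set of
  coordinates the points of the space have only countably many restrictions.  Hence the space is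
  Rothberger.
* The sets `U α` of all points that are small at the coordinate `α` form an omega-cover, and for
  `δ > α` not both points with index `δ` lie in `U α`.  Hence no countable part of this
  omega-cover is an omega-cover.
-/

set_option autoImplicit false

namespace Pool.Agent.Results.MP_f9bcb0_lc.RothbergerNotOmega

open Set

/-- `𝒰` is an open cover of `X`. -/
def IsOpenCover' (X : Type) [TopologicalSpace X] (𝒰 : Set (Set X)) : Prop :=
  (∀ U ∈ 𝒰, IsOpen U) ∧ ⋃₀ 𝒰 = univ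

/-- `𝒰` is an omega-cover of `X`: an open cover, `X ∉ 𝒰`, and each finite subset of `X` is
contained in some member of `𝒰`. -/
def IsOmegaCover (X : Type) [TopologicalSpace X] (𝒰 : Set (Set X)) : Prop :=
  IsOpenCover' X 𝒰 ∧ univ ∉ 𝒰 ∧ ∀ F : Set X, F.Finite → ∃ U ∈ 𝒰, F ⊆ U

/-- `X` is Rothberger, `S₁(O, O)`. -/
def IsRothberger (X : Type) [TopologicalSpace X] : Prop :=
  ∀ 𝒰 : ℕ → Set (Set X), (∀ n, IsOpenCover' X (𝒰 n)) →
    ∃ U : ℕ → Set X, (∀ n, U n ∈ 𝒰 n) ∧ IsOpenCover' X (range U)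

/-- `X` is omega-Rothberger, `S₁(Ω, Ω)`. -/
def IsOmegaRothberger (X : Type) [TopologicalSpace X] : Prop :=
  ∀ 𝒰 : ℕ → Set (Set X), (∀ n, IsOmegaCover X (𝒰 n)) →
    ∃ U : ℕ → Set X, (∀ n, U n ∈ 𝒰 n) ∧ IsOmegaCover X (range U)

open Filter Topology Cardinal
open Pool.Agent.Results.MP_b9a716_gt.MooreLSpace
open Run7.h194.RothL

section space

variable {W : Type} [LinearOrder W] [OrderBot W] [WellFoundedLT W] [Om W]

/-- the underlying set of the space -/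
abbrev Z (z : W → UnitAddCircle) (h : UnitAddCircle) : Type :=
  range fun p : Bool × W => ((p.1, V z h p.1 p.2) : Bool × (W → UnitAddCircle))

variable (z : W → UnitAddCircle) (h : UnitAddCircle)

/-- the point with index `p` -/
noncomputable def pt (p : Bool × W) : Z z h := ⟨_, p, rfl⟩

variable {z h}

theorem exists_pt (x : Z z h) : ∃ p, pt z h p = x := by
  obtain ⟨p, hp⟩ := x.2
  exact ⟨p, Subtype.ext hp⟩

theorem nbhdZ {O : Set (Z z h)} (hO : IsOpen O) {p : Bool × W} (hp : pt z h p ∈ O) :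
    ∃ (s : Finset W) (n : ℕ), ∀ β, (∀ ξ ∈ s, ‖V z h p.1 β ξ - V z h p.1 p.2 ξ‖ <
      1 / ((n : ℝ) + 1)) → pt z h (p.1, β) ∈ O := by
  obtain ⟨V', hV', rfl⟩ := isOpen_induced_iff.1 hO
  have h1 : V' ∈ 𝓝 ((p.1, V z h p.1 p.2) : Bool × (W → UnitAddCircle)) := hV'.mem_nhds hp
  rw [nhds_prod_eq, Filter.mem_prod_iff] at h1
  obtain ⟨t₁, ht₁, t₂, ht₂, hsub⟩ := h1
  rw [nhds_pi, Filter.mem_pi] at ht₂
  obtain ⟨I, hI, t, ht, hsub₂⟩ := ht₂
  have h2 : ∀ ξ, ∃ ε > 0, Metric.ball (V z h p.1 p.2 ξ) ε ⊆ t ξ :=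
    fun ξ => Metric.mem_nhds_iff.1 (ht ξ)
  choose ε hε hball using h2
  obtain ⟨n, hn⟩ : ∃ n : ℕ, ∀ ξ ∈ hI.toFinset, 1 / ((n : ℝ) + 1) < ε ξ := by
    have h3 : ∀ ξ, ∃ n : ℕ, 1 / ((n : ℝ) + 1) < ε ξ := fun ξ => exists_nat_one_div_lt (hε ξ)
    choose N hN using h3
    refine ⟨hI.toFinset.sup N, fun ξ hξ => lt_of_le_of_lt ?_ (hN ξ)⟩
    apply one_div_le_one_div_of_le (by positivity)
    have : N ξ ≤ hI.toFinset.sup N := Finset.le_sup hξ
    have : (N ξ : ℝ) ≤ (hI.toFinset.sup N : ℕ) := by exact_mod_cast this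
    linarith
  refine ⟨hI.toFinset, n, fun β hβ => ?_⟩
  show ((p.1, V z h p.1 β) : Bool × (W → UnitAddCircle)) ∈ V'
  apply hsub
  refine ⟨mem_of_mem_nhds ht₁, hsub₂ ?_⟩
  intro ξ hξ
  apply hball
  rw [Metric.mem_ball, dist_eq_norm]
  have hξ' : ξ ∈ hI.toFinset := by simpa using hξ
  exact (hβ ξ hξ').trans (hn ξ hξ')

/-- The space is hereditarily Lindelöf. -/
theorem herLindelof (hz : Kr z) : HereditarilyLindelofSpace (Z z h) := by
  classical
  refine ⟨fun t _ => ?_⟩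
  apply isLindelof_of_countable_subcover
  intro κ U hU ht
  have h1 : ∀ p : Bool × W, ∃ (i : Option κ) (s : Finset W) (n : ℕ), pt z h p ∈ t → ∃ j,
      i = some j ∧ ∀ β, (∀ ξ ∈ s, ‖V z h p.1 β ξ - V z h p.1 p.2 ξ‖ < 1 / ((n : ℝ) + 1)) →
        pt z h (p.1, β) ∈ U j := by
    intro p
    by_cases hy : pt z h p ∈ t
    · obtain ⟨j, hj⟩ := Set.mem_iUnion.1 (ht hy)
      obtain ⟨s, n, h⟩ := nbhdZ (hU j) hj
      exact ⟨some j, s, n, fun _ => ⟨j, rfl, h⟩⟩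
    · exact ⟨none, ∅, 0, fun h => absurd h hy⟩
  choose i s n h1 using h1
  have h2 : ∀ b : Bool, ∃ Q₀ : Set W, Q₀ ⊆ {β | pt z h (b, β) ∈ t} ∧ Q₀.Countable ∧
      ∀ β, pt z h (b, β) ∈ t → ∃ β' ∈ Q₀, ∀ ξ ∈ s (b, β'),
        ‖V z h b β ξ - V z h b β' ξ‖ < 1 / ((n (b, β') : ℝ) + 1) := fun b =>
    hlV hz h b {β | pt z h (b, β) ∈ t} (fun β => s (b, β)) (fun β => n (b, β))
  choose Q₀ hQ hQc hcov using h2
  refine ⟨{j | ∃ b, ∃ β ∈ Q₀ b, i (b, β) = some j}, ?_, ?_⟩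
  · have h3 : {j | ∃ b, ∃ β ∈ Q₀ b, i (b, β) = some j} =
        ⋃ b : Bool, ⋃ β ∈ Q₀ b, {j | i (b, β) = some j} := by
      ext j; simp
    rw [h3]
    refine Set.countable_iUnion fun b => (hQc b).biUnion fun β _ => ?_
    refine Set.Subsingleton.countable ?_
    intro a ha c hc
    exact Option.some_injective _ (ha.symm.trans hc)
  · intro x hx
    obtain ⟨⟨b, β⟩, rfl⟩ := exists_pt x
    obtain ⟨β', hβ', hyy⟩ := hcov b β hx
    obtain ⟨j, hj, hj2⟩ := h1 (b, β') (hQ b hβ')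
    exact Set.mem_iUnion₂.2 ⟨j, ⟨b, β', hβ', hj⟩, hj2 β hyy⟩

/-- The space is Rothberger. -/
theorem rothberger (hz : Kr z) : IsRothberger (Z z h) := by
  classical
  intro 𝒰 h𝒰
  have h1 : ∀ (k : ℕ) (p : Bool × W), ∃ (O : Set (Z z h)) (s : Finset W) (n : ℕ), O ∈ 𝒰 k ∧
      ∀ β, (∀ ξ ∈ s, ‖V z h p.1 β ξ - V z h p.1 p.2 ξ‖ < 1 / ((n : ℝ) + 1)) →
        pt z h (p.1, β) ∈ O := by
    intro k p
    have hp : pt z h p ∈ ⋃₀ 𝒰 k := by rw [(h𝒰 k).2]; trivial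
    obtain ⟨O, hO, hpO⟩ := hp
    obtain ⟨s, n, h⟩ := nbhdZ ((h𝒰 k).1 O hO) hpO
    exact ⟨O, s, n, hO, h⟩
  choose O s n hO h1 using h1
  have h2 : ∀ (k : ℕ) (b : Bool), ∃ Q₀ : Set W, Q₀.Countable ∧
      ∀ β, ∃ β' ∈ Q₀, ∀ ξ ∈ s k (b, β'),
        ‖V z h b β ξ - V z h b β' ξ‖ < 1 / ((n k (b, β') : ℝ) + 1) := by
    intro k b
    obtain ⟨Q₀, -, h3, h4⟩ := hlV hz h b univ (fun β => s k (b, β)) (fun β => n k (b, β))
    exact ⟨Q₀, h3, fun β => h4 β trivial⟩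
  choose Q₀ hQc hcov using h2
  -- a bound for all supports
  obtain ⟨δ, hδ⟩ : ∃ δ : W, ∀ k b, ∀ β ∈ Q₀ k b, ∀ ξ ∈ s k (b, β), ξ < δ := by
    have h3 : (⋃ k, ⋃ b, ⋃ β ∈ Q₀ k b, (↑(s k (b, β)) : Set W)).Countable :=
      Set.countable_iUnion fun k => Set.countable_iUnion fun b =>
        (hQc k b).biUnion fun β _ => (Finset.countable_toSet _)
    obtain ⟨δ, hδ⟩ := Om.bdd _ h3
    refine ⟨δ, fun k b β hβ ξ hξ => hδ ξ ?_⟩
    simp only [Set.mem_iUnion]
    exact ⟨k, b, β, hβ, hξ⟩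
  -- representatives
  let code : Bool × W → Bool × (W → ℕ) := fun p => (p.1, cut δ fun ξ => cd ξ p.2)
  have hc : (range code).Countable := by
    refine ((Set.to_countable (univ : Set Bool)).prod (countable_cd δ)).mono ?_
    rintro _ ⟨p, rfl⟩
    exact ⟨trivial, p.2, rfl⟩
  obtain ⟨g, hg⟩ := hc.exists_eq_range ⟨_, (true, ⊥), rfl⟩
  have h3 : ∀ k, ∃ p, code p = g k := fun k => by
    have : g k ∈ range code := by rw [hg]; exact ⟨k, rfl⟩
    exact this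
  choose r hr using h3
  have h4 : ∀ k, ∃ β' ∈ Q₀ k (r k).1, ∀ ξ ∈ s k ((r k).1, β'),
      ‖V z h (r k).1 (r k).2 ξ - V z h (r k).1 β' ξ‖ < 1 / ((n k ((r k).1, β') : ℝ) + 1) :=
    fun k => hcov k (r k).1 (r k).2
  choose q hq1 hq2 using h4
  refine ⟨fun k => O k ((r k).1, q k), fun k => hO k _, ?_, ?_⟩
  · rintro _ ⟨k, rfl⟩
    exact (h𝒰 k).1 _ (hO k _)
  · rw [Set.eq_univ_iff_forall]
    intro x
    obtain ⟨⟨b, β⟩, rfl⟩ := exists_pt x
    have h5 : code (b, β) ∈ range g := by rw [← hg]; exact ⟨_, rfl⟩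
    obtain ⟨k, hk⟩ := h5
    rw [← hr k] at hk
    have h6 : (r k).1 = b := congrArg Prod.fst hk
    have h7 : (cut δ fun ξ => cd ξ (r k).2) = cut δ fun ξ => cd ξ β := congrArg Prod.snd hk
    refine ⟨_, ⟨k, rfl⟩, ?_⟩
    have h8 := h1 k ((r k).1, q k) β (by
      intro ξ hξ
      have h9 := hδ k (r k).1 (q k) (hq1 k) ξ hξ
      have h10 := congrFun h7 ξ
      simp only [cut, if_pos h9] at h10
      simp only
      rw [← V_eq (b := (r k).1) h10]
      exact hq2 k ξ hξ)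
    rw [← h6]
    exact h8

/-- the points that are small at the coordinate `α` -/
def small (z : W → UnitAddCircle) (h : UnitAddCircle) (α : W) : Set (Z z h) :=
  {x | ‖x.1.2 α‖ < 1 / 8}

theorem isOpen_small (α : W) : IsOpen (small z h α) := by
  have h1 : Continuous fun x : Z z h => ‖x.1.2 α‖ := by fun_prop
  exact isOpen_lt h1 continuous_const

theorem not_both (hh : 1 / 4 ≤ ‖h‖) {α δ : W} (hδ : α < δ) :
    ¬ (pt z h (true, δ) ∈ small z h α ∧ pt z h (false, δ) ∈ small z h α) := by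
  rintro ⟨h1, h2⟩
  have h1' : ‖V z h true δ α‖ < 1 / 8 := h1
  have h2' : ‖V z h false δ α‖ < 1 / 8 := h2
  have h3 := norm_add_le (V z h true δ α) (V z h false δ α)
  rw [V_add hδ] at h3
  linarith

/-- The space is not omega-Rothberger. -/
theorem not_omegaRothberger (hh : 1 / 4 ≤ ‖h‖) : ¬ IsOmegaRothberger (Z z h) := by
  classical
  intro hcon
  have hfin : ∀ F : Set (Z z h), F.Finite → ∃ U ∈ range (small z h), F ⊆ U := by
    intro F hF
    have h1 : ∀ x : Z z h, ∃ p, pt z h p = x := exists_pt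
    choose ι hι using h1
    obtain ⟨α, hα⟩ := Om.bdd ((fun x => (ι x).2) '' F) (hF.countable.image _)
    refine ⟨_, ⟨α, rfl⟩, fun x hx => ?_⟩
    have h2 : (ι x).2 < α := hα _ ⟨x, hx, rfl⟩
    have h3 : x.1.2 α = 0 := by
      rw [← hι x]
      exact V_of_le h2.le
    show ‖x.1.2 α‖ < 1 / 8
    rw [h3, norm_zero]
    norm_num
  have hcov : IsOmegaCover (Z z h) (range (small z h)) := by
    refine ⟨⟨?_, ?_⟩, ?_, hfin⟩
    · rintro _ ⟨α, rfl⟩
      exact isOpen_small α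
    · rw [Set.eq_univ_iff_forall]
      intro x
      obtain ⟨U, hU, hx⟩ := hfin {x} (Set.finite_singleton x)
      exact ⟨U, hU, hx rfl⟩
    · rintro ⟨α, hα⟩
      obtain ⟨δ, hδ⟩ := Om.bdd {α} (Set.countable_singleton α)
      refine not_both (z := z) hh (hδ α rfl) ⟨?_, ?_⟩ <;> rw [hα] <;> trivial
  obtain ⟨U, hU, -, -, hU2⟩ := hcon (fun _ => range (small z h)) (fun _ => hcov)
  choose α hα using hU
  obtain ⟨δ, hδ⟩ := Om.bdd (range α) (Set.countable_range α)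
  obtain ⟨_, ⟨n, rfl⟩, hn⟩ := hU2 {pt z h (true, δ), pt z h (false, δ)} (Set.toFinite _)
  refine not_both (z := z) hh (hδ (α n) ⟨n, rfl⟩) ⟨?_, ?_⟩ <;> rw [hα] <;> apply hn <;> simp

end space

/-- **ZFC proves that some space is Rothberger but not omega-Rothberger.**  The space can be taken
Tychonoff and hereditarily Lindelöf. -/
theorem result : ∃ (X : Type) (_ : TopologicalSpace X), T35Space X ∧ HereditarilyLindelofSpace X ∧
    IsRothberger X ∧ ¬ IsOmegaRothberger X := by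
  obtain ⟨W, i1, i2, i3, i4, hW⟩ := exists_W
  obtain ⟨z, hz1, hz2⟩ := kron W hW
  have hz : Kr z := ⟨hz1, hz2⟩
  let h : UnitAddCircle := ((1 / 2 : ℝ) : UnitAddCircle)
  have hh : 1 / 4 ≤ ‖h‖ := by
    have : ‖h‖ = 1 / 2 := by
      have := UnitAddCircle.norm_eq (x := (1 / 2 : ℝ))
      rw [this]
      norm_num [round_eq]
    rw [this]; norm_num
  exact ⟨Z z h, inferInstance, inferInstance, herLindelof hz, rothberger hz,
    not_omegaRothberger hh⟩

end Pool.Agent.Results.MP_f9bcb0_lc.RothbergerNotOmega
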